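import Pool.Agent.H992.SF.GDefs
import Pool.Agent.H56.SF.Bridge

/-!
# SG/BRIDGE2: the joint characteristic functions as means over random frames (MP_a28cf0_nt)

The proof of `Pool.Agent.H56.SF.bridge`, with weights that are test functions or the constant one.
-/

set_option autoImplicit false
open MeasureTheory Filter Topology Complex
open scoped ContDiff ENNReal

namespace Pool.Agent.H176.SG

open Pool.Agent.W745.RW (TF)
open Pool.Agent.Y265.HY (SY FW FD)
open Pool.Agent.N661.BR (MW lin)
open Pool.Agent.N661.BH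
open Pool.Agent.N814.BHM
open Pool.Agent.N814.BHASM
open Pool.Agent.H992.SF
open Pool.Agent.H992.LB (eγ eX SX nn fs SX_fs)
open Pool.Agent.H56.SF (ex_true ex_false exp_sum)

noncomputable section

theorem Ad_bd {Ω : Set ℂ} {ψ : ℂ → ℝ} (h : Ad Ω ψ) : ∃ C : ℝ, ∀ z, ‖ψ z‖ ≤ C := by
  rcases h with h | h
  · exact h.1.continuous.bounded_above_of_compact_support h.2.1
  · refine ⟨1, fun z => ?_⟩
    rw [h]
    simp

theorem Ad_meas {Ω : Set ℂ} {ψ : ℂ → ℝ} (h : Ad Ω ψ) : Measurable ψ := by
  rcases h with h | h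
  · exact h.1.continuous.measurable
  · rw [h]
    exact measurable_const

theorem eX_fs (lam : ℝ) (u : ℂ → ℝ) {k : ℕ} (w : Fin k → ℂ) (t : Fin k → ℝ) (p : ℂ × (ℝ × Bool)) :
    eX lam u (fs w t) p = ex lam u (fun j => (t j : ℂ)) w p := by
  unfold eX ex
  rw [SX_fs]

/-- **SG/BRIDGE2** -/
theorem bridge2 : S_BRIDGE2 := by
  intro d Ω lam u H hd ψ hψ k w t
  have H0 := H ⟨0, hd⟩
  have := probz H0
  have := probP H0
  have hsm : ∀ᶠ n in atTop, ∀ i j, 1 / √(lam i n) * ‖w i j‖ < 1 :=
    Filter.eventually_all.2 fun i => Filter.eventually_all.2 fun j => small (H i) (w i j)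
  filter_upwards [hsm] with n hn
  obtain ⟨C, hC⟩ := Ad_bd hψ
  set G : ℂ × (ℝ × Bool) → ℂ := fun p =>
    ∏ i, ex (lam i n) (u i n) (fun j => (t i j : ℂ)) (w i) p with hG
  have hGe : ∀ p, eXJ (fun i => lam i n) (fun i => u i n) (fun i => fs (w i) (t i)) p = G p := by
    intro p
    unfold eXJ
    rw [hG]
    exact Finset.prod_congr rfl fun i _ => eX_fs _ _ _ _ _
  simp_rw [hGe]
  have hGm : Measurable G := Finset.measurable_fun_prod _ fun i _ => ex_meas ((H i).sm n) _ _
  have hGn : ∀ p, ‖G p‖ = 1 := by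
    intro p
    rw [hG]
    simp only [norm_prod, ex_norm, Finset.prod_const_one]
  have hψm : Measurable fun p : ℂ × (ℝ × Bool) => (ψ p.1 : ℂ) :=
    Complex.measurable_ofReal.comp ((Ad_meas hψ).comp measurable_fst)
  have hi : Integrable (fun p : ℂ × (ℝ × Bool) => (ψ p.1 : ℂ) * G p) (P Ω) :=
    Integrable.of_bound (hψm.mul hGm).aestronglyMeasurable C
      (Eventually.of_forall fun p => by
        rw [norm_mul, hGn, mul_one, Complex.norm_real]
        exact hC _)
  unfold P at hi ⊢
  rw [integral_prod _ hi, int_Pz (mpos H0), Complex.real_smul, Complex.ofReal_inv,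
    mul_inv_cancel_left₀ (Complex.ofReal_ne_zero.2 (mpos H0).ne')]
  unfold jChar area
  refine setIntegral_congr_fun H0.op.measurableSet fun z hz => ?_
  show _ = (1 / z.im ^ 2) • ∫ q, (ψ z : ℂ) * G (z, q) ∂Q
  rw [Complex.real_smul, integral_const_mul]
  congr 1
  have hi2 : Integrable (fun q => G (z, q)) Q :=
    Integrable.of_bound (hGm.comp measurable_prodMk_left).aestronglyMeasurable 1
      (Eventually.of_forall fun q => (hGn _).le)
  rw [int_Q _ hi2, Complex.real_smul]
  unfold frameMean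
  have hz' : z ∈ HP := H0.sub hz
  show (ψ z : ℂ) * _ = _
  congr 1
  congr 1
  congr 1
  funext θ
  congr 1
  · refine (exp_sum t fun i j => loc (lam i n) (u i n) z (Complex.exp (θ * I) * w i j)).trans ?_
    exact Finset.prod_congr rfl fun i _ => (ex_true (t i) (w i) (hn i) hz' θ).symm
  · refine (exp_sum t fun i j => loc (lam i n) (u i n) z
      (Complex.exp (θ * I) * starRingEnd ℂ (w i j))).trans ?_
    exact Finset.prod_congr rfl fun i _ => (ex_false (t i) (w i) (hn i) hz' θ).symm

end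

end Pool.Agent.H176.SG
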